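import Pool.Agent.P.MP_870b40_al.TP.Main3

namespace Pool.Agent.Results.MP_870b40_al.TwoPoints

open scoped Pointwise

universe u v

/-- `S` is a section of `X`: a homomorphic image of a subgroup of `X`. -/
def IsSection (S : Type*) [Group S] (X : Type*) [Group X] : Prop :=
  ∃ (B : Subgroup X) (f : B →* S), Function.Surjective f

/-- `S` is a homomorphic image of a subnormal subgroup of `X`; for simple `S` and finite `X`
this says that `S` is a composition factor of `X`. -/
def IsFactor (S : Type*) [Group S] (X : Type*) [Group X] : Prop :=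
  ∃ (B : Subgroup X) (f : B →* S), B.IsSubnormal ∧ Function.Surjective f

/-- The inner automorphisms form a normal subgroup. -/
instance innNormal (S : Type*) [Group S] : (MulAut.conj : S →* MulAut S).range.Normal :=
  ⟨by
    rintro _ ⟨s, rfl⟩ g
    exact ⟨g s, by ext x; simp⟩⟩

/-- The outer automorphism group. -/
abbrev OutGroup (S : Type*) [Group S] : Type _ :=
  MulAut S ⧸ (MulAut.conj : S →* MulAut S).range

theorem result {Ω : Type u} [Finite Ω] (G : Subgroup (Equiv.Perm Ω))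
    {T : Type v} [Group T] [IsSimpleGroup T] (hT : ∃ a b : T, a * b ≠ b * a)
    (φ : G →* T) (hφ : Function.Surjective φ)
    (hS : ∀ (S : Type u) [Group S] [IsSimpleGroup S], (∃ a b : S, a * b ≠ b * a) →
      IsFactor S φ.ker → ¬ IsSection T (OutGroup S)) :
    ∃ Δ : Set Ω, Δ.ncard ≤ 2 ∧ (MulAction.stabilizer G Δ).map φ < ⊤ := by
  have : P.MP_870b40_al.NAS T := { ncomm := hT }
  obtain ⟨Δ, h1, h2⟩ := P.MP_870b40_al.TP.main3 (Ω := Ω) hφ (by
    rintro D hD A B hAB hBD hBA hDB hA S _ _ f hf ⟨K, _, ρ, ψ, hψ, hk⟩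
    have hn : A.IsSubnormal := .step A B hAB (.step B D hBD hD.nz.normal.isSubnormal
      (Subgroup.normal_subgroupOf_of_le_normalizer (P.MP_870b40_al.nz_iff.1 hDB)))
      (Subgroup.normal_subgroupOf_of_le_normalizer (P.MP_870b40_al.nz_iff.1 hBA))
    refine hS S P.MP_870b40_al.NAS.ncomm
      ⟨A.subgroupOf φ.ker, f.comp (Subgroup.subgroupOfEquivOfLe hA).toMonoidHom, hn.subgroupOf,
        hf.comp (Subgroup.subgroupOfEquivOfLe hA).surjective⟩ ?_
    let σ : K →* OutGroup S := (QuotientGroup.mk' _).comp ρ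
    have hle : σ.rangeRestrict.ker ≤ ψ.ker := by
      intro k hk'
      rw [MonoidHom.ker_rangeRestrict] at hk'
      obtain ⟨s, hs⟩ := (QuotientGroup.eq_one_iff _).1 hk'
      exact hk k ⟨s, hs.symm⟩
    refine ⟨σ.range, σ.rangeRestrict.liftOfSurjective σ.rangeRestrict_surjective ⟨ψ, hle⟩,
      fun t => ?_⟩
    obtain ⟨k, rfl⟩ := hψ t
    exact ⟨σ.rangeRestrict k, MonoidHom.liftOfRightInverse_comp_apply _ _ _ _ _⟩)
  refine ⟨Δ, by simpa using h1, lt_top_iff_ne_top.2 (h2 _ fun w hw a ha => ?_)⟩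
  have h3 : w • (Δ : Set Ω) = Δ := hw
  have h4 : w • a ∈ w • (Δ : Set Ω) := Set.smul_mem_smul_set ha
  rwa [h3] at h4

end Pool.Agent.Results.MP_870b40_al.TwoPoints
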